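import Pool.Agent.W937.FG.All
import Pool.Agent.W382.FG.P1

/-!
# MP_020f70_lc: no family of control languages gives the context-sensitive languages

`SCFA(𝓛)` is closed under erasing letters, for every family `𝓛` whatsoever: a move reading an
erased letter is replaced by an `ε`-move, and the record of the states is the same. The
context-sensitive languages are not closed under erasing: the language of a forbidding grammar
with erasing rules, which may be no noncontracting language, is the erasing image of a
noncontracting language. Hence `SCFA(𝓛) ≠ CS` for every `𝓛`.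
-/

set_option autoImplicit false

namespace Pool.Agent.Results.MP_020f70_lc.NoControlFamily

open Relation

/-! ### Finite automata controlled by languages of state records -/

/-- A finite automaton with input alphabet `A`; the rule `(p, some a, q)` is `pa → q`, the rule
`(p, none, q)` is `p → q` (no letter is read). -/
structure FA (A : Type) where
  Q : Type
  finQ : Finite Q
  R : Set (Q × Option A × Q)
  finR : R.Finite
  s : Q
  F : Set Q

/-- One move; a configuration is (state, remaining input, record of the states left so far). -/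
inductive FA.Move {A : Type} (M : FA A) :
    M.Q × List A × List M.Q → M.Q × List A × List M.Q → Prop
  | read (p q : M.Q) (a : A) (x : List A) (α : List M.Q) (h : (p, some a, q) ∈ M.R) :
      FA.Move M (p, a :: x, α) (q, x, α ++ [p])
  | eps (p q : M.Q) (x : List A) (α : List M.Q) (h : (p, none, q) ∈ M.R) :
      FA.Move M (p, x, α) (q, x, α ++ [p])

/-- The language accepted by `M` under the control language `C`. -/
def FA.lang {A : Type} (M : FA A) (C : Set (List M.Q)) : Set (List A) :=
  {w | ∃ f ∈ M.F, ∃ α ∈ C, ReflTransGen M.Move (M.s, w, []) (f, [], α)}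

/-- A family of languages: a set of languages for every alphabet. -/
abbrev Family : Type 1 := ∀ A : Type, Set (Set (List A))

/-- The family `SCFA(𝓛)` of the languages accepted by finite automata under the control of a
language of `𝓛` over the set of states. -/
def SCFA (𝓛 : Family) : Family := fun A =>
  {L | ∃ (M : FA A) (C : Set (List M.Q)), C ∈ 𝓛 M.Q ∧ L = M.lang C}

/-! ### Context-sensitive languages -/

/-- A noncontracting grammar with terminals `T`: finitely many rules `x → y` with `|x| ≤ |y|`,
where `x` contains a nonterminal. -/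
structure Grammar (T : Type) where
  N : Type
  finN : Finite N
  P : Set (List (Symbol T N) × List (Symbol T N))
  finP : P.Finite
  lhs : ∀ r ∈ P, ∃ A : N, Symbol.nonterminal A ∈ r.1
  len : ∀ r ∈ P, r.1.length ≤ r.2.length
  S : N

/-- One derivation step `u x v ⇒ u y v`. -/
def Grammar.Step {T : Type} (G : Grammar T) (α β : List (Symbol T G.N)) : Prop :=
  ∃ u v x y : List (Symbol T G.N), (x, y) ∈ G.P ∧ α = u ++ x ++ v ∧ β = u ++ y ++ v

/-- The language generated by a grammar. -/
def Grammar.lang {T : Type} (G : Grammar T) : Set (List T) :=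
  {w | ReflTransGen G.Step [Symbol.nonterminal G.S] (w.map Symbol.terminal)}

/-- The context-sensitive languages: up to the empty word, the languages generated by
noncontracting grammars. -/
def CS : Family := fun T => {L | ∃ G : Grammar T, ∀ w : List T, w ≠ [] → (w ∈ L ↔ w ∈ G.lang)}

/-! ### Closure of `SCFA(𝓛)` under erasing -/

theorem move_inv {A : Type} {M : FA A} {c d : M.Q × List A × List M.Q} (h : M.Move c d) :
    (∃ (p q : M.Q) (a : A) (x : List A) (α : List M.Q), (p, some a, q) ∈ M.R ∧
      c = (p, a :: x, α) ∧ d = (q, x, α ++ [p])) ∨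
    (∃ (p q : M.Q) (x : List A) (α : List M.Q), (p, none, q) ∈ M.R ∧
      c = (p, x, α) ∧ d = (q, x, α ++ [p])) := by
  cases h with
  | read p q a x α h => exact Or.inl ⟨p, q, a, x, α, h, rfl, rfl⟩
  | eps p q x α h => exact Or.inr ⟨p, q, x, α, h, rfl, rfl⟩

section erase

variable {T : Type} (M : FA (Option T))

/-- the automaton in which the moves reading `none` are replaced by moves reading nothing -/
def er : FA T where
  Q := M.Q
  finQ := M.finQ
  R := (fun r : M.Q × Option (Option T) × M.Q => (r.1, r.2.1.join, r.2.2)) '' M.R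
  finR := M.finR.image _
  s := M.s
  F := M.F

theorem er_R {p q : M.Q} {b : Option T} (h : (p, b, q) ∈ (er M).R) :
    ∃ b' : Option (Option T), (p, b', q) ∈ M.R ∧ b'.join = b := by
  have h' : (p, b, q) ∈ (fun r : M.Q × Option (Option T) × M.Q => (r.1, r.2.1.join, r.2.2)) ''
    M.R := h
  obtain ⟨⟨p', b', q'⟩, hr, he⟩ := h'
  simp only [Prod.mk.injEq] at he
  obtain ⟨rfl, hb, rfl⟩ := he
  exact ⟨b', hr, hb⟩

theorem er_move {c d : M.Q × List (Option T) × List M.Q} (h : M.Move c d) :
    (er M).Move (c.1, c.2.1.reduceOption, c.2.2) (d.1, d.2.1.reduceOption, d.2.2) := by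
  cases h with
  | read p q a x α h =>
    have hr : (p, a, q) ∈ (er M).R := ⟨(p, some a, q), h, by simp⟩
    cases a with
    | none =>
      simp only [List.reduceOption_cons_of_none]
      exact FA.Move.eps (M := er M) _ _ _ _ hr
    | some a =>
      simp only [List.reduceOption_cons_of_some]
      exact FA.Move.read (M := er M) _ _ _ _ _ hr
  | eps p q x α h =>
    have hr : (p, none, q) ∈ (er M).R := ⟨(p, none, q), h, by simp⟩
    exact FA.Move.eps (M := er M) _ _ _ _ hr

theorem er_back {c d : M.Q × List T × List M.Q} (h : (er M).Move c d) (y : List (Option T))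
    (hy : y.reduceOption = d.2.1) :
    ∃ x : List (Option T), x.reduceOption = c.2.1 ∧ M.Move (c.1, x, c.2.2) (d.1, y, d.2.2) := by
  rcases move_inv h with ⟨p, q, a, x, α, hR, rfl, rfl⟩ | ⟨p, q, x, α, hR, rfl, rfl⟩
  · obtain ⟨b, hr, hb⟩ := er_R M hR
    rw [Option.join_eq_some_iff] at hb
    subst hb
    exact ⟨some a :: y, by
      rw [List.reduceOption_cons_of_some]
      exact congrArg (a :: ·) hy, FA.Move.read _ _ _ _ _ hr⟩
  · obtain ⟨b, hr, hb⟩ := er_R M hR
    rw [Option.join_eq_none_iff] at hb
    rcases hb with hb | hb
    · subst hb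
      exact ⟨y, hy, FA.Move.eps _ _ _ _ hr⟩
    · subst hb
      exact ⟨none :: y, by rw [List.reduceOption_cons_of_none]; exact hy,
        FA.Move.read _ _ _ _ _ hr⟩

theorem er_lang (C : Set (List M.Q)) :
    (er M).lang C = List.reduceOption '' M.lang C := by
  ext w
  constructor
  · rintro ⟨f, hf, α, hα, hrun⟩
    have key : ∀ c : M.Q × List T × List M.Q, ReflTransGen (er M).Move c (f, [], α) →
        ∃ x : List (Option T), x.reduceOption = c.2.1 ∧
          ReflTransGen M.Move (c.1, x, c.2.2) (f, [], α) := by
      intro c hc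
      induction hc using ReflTransGen.head_induction_on with
      | refl => exact ⟨[], rfl, .refl⟩
      | head h1 _ ih =>
        obtain ⟨y, hy, hr⟩ := ih
        obtain ⟨x, hx, hm⟩ := er_back M h1 y hy
        exact ⟨x, hx, ReflTransGen.head hm hr⟩
    obtain ⟨x, hx, hr⟩ := key _ hrun
    exact ⟨x, ⟨f, hf, α, hα, hr⟩, hx⟩
  · rintro ⟨x, ⟨f, hf, α, hα, hrun⟩, rfl⟩
    refine ⟨f, hf, α, hα, ?_⟩
    exact ReflTransGen.lift (fun c : M.Q × List (Option T) × List M.Q =>
      ((c.1, c.2.1.reduceOption, c.2.2) : M.Q × List T × List M.Q))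
      (fun a b h => er_move M h) _ _ hrun

end erase

/-! ### A noncontracting grammar for a padded forbidding language -/

open Pool.Agent.W937.FG (Rule GRule Gen GGen GStep)

section pad

/-- nonterminals of the padded grammar: start, end markers, head states, padded symbols -/
inductive NT (T N ι : Type) : Type
  | st
  | lm
  | rm
  | idle
  | back
  | fin
  | chk (i : ι)
  | app (i : ι)
  | sym (x : Option (Symbol T N))

instance {T N ι : Type} [Finite T] [Finite N] [Finite ι] : Finite (NT T N ι) := by
  classical
  have := Fintype.ofFinite T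
  have := Fintype.ofFinite N
  have : Function.Injective (fun x : NT T N ι => (match x with
    | .st => Sum.inl 0
    | .lm => Sum.inl 1
    | .rm => Sum.inl 2
    | .idle => Sum.inl 3
    | .back => Sum.inl 4
    | .fin => Sum.inl 5
    | .chk i => Sum.inr (Sum.inl i)
    | .app i => Sum.inr (Sum.inr (Sum.inl i))
    | .sym x => Sum.inr (Sum.inr (Sum.inr x)) :
      Fin 6 ⊕ (ι ⊕ (ι ⊕ Option (Symbol T N))))) := by
    intro x y h
    cases x <;> cases y <;> simp_all
  exact Finite.of_injective _ this

variable {T N : Type} (P : Set (Rule T N)) (S : N)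

abbrev Sy : Type := Symbol (Option T) (NT T N P)

variable {P} in
/-- a nonterminal as a symbol -/
abbrev nt (A : NT T N P) : Sy P := Symbol.nonterminal A

variable {P} in
/-- a padded symbol -/
abbrev pd (x : Option (Symbol T N)) : Sy P := Symbol.nonterminal (NT.sym x)

/-- the padded right side -/
def padr (l : List (Symbol T N)) : List (Option (Symbol T N)) :=
  if l = [] then [none] else l.map some

theorem padr_fm (l : List (Symbol T N)) : (padr l).reduceOption = l := by
  unfold padr
  split_ifs with h
  · subst h; rfl
  · simp [List.reduceOption, List.filterMap_map]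

theorem padr_len (l : List (Symbol T N)) : 1 ≤ (padr l).length := by
  unfold padr
  split_ifs with h
  · simp
  · rw [List.length_map]; exact List.length_pos_iff.2 h

/-- the rules -/
inductive Rl : List (Sy P) → List (Sy P) → Prop
  | init : Rl [nt .st] [nt .lm, nt .idle, pd (some (.nonterminal S)), nt .rm]
  | pick (i : P) : Rl [nt .idle] [nt (.chk i)]
  | chkR (i : P) (x : Option (Symbol T N))
      (h : ∀ B ∈ i.1.2.2, x ≠ some (Symbol.nonterminal B)) :
      Rl [nt (.chk i), pd x] [pd x, nt (.chk i)]
  | chkE (i : P) : Rl [nt (.chk i), nt .rm] [nt (.app i), nt .rm]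
  | appL (i : P) (x : Option (Symbol T N)) : Rl [pd x, nt (.app i)] [nt (.app i), pd x]
  | appl (i : P) : Rl [nt (.app i), pd (some (.nonterminal i.1.1))]
      (nt .back :: (padr i.1.2.1).map pd)
  | backL (x : Option (Symbol T N)) : Rl [pd x, nt .back] [nt .back, pd x]
  | backE : Rl [nt .lm, nt .back] [nt .lm, nt .idle]
  | finS : Rl [nt .lm, nt .idle] [Symbol.terminal none, nt .fin]
  | finT (t : Option T) : Rl [nt .fin, pd (t.map Symbol.terminal)] [Symbol.terminal t, nt .fin]
  | finE : Rl [nt .fin, nt .rm] [Symbol.terminal none, Symbol.terminal none]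

/-- one step -/
def St (α β : List (Sy P)) : Prop :=
  ∃ u v l r : List (Sy P), Rl P S l r ∧ α = u ++ l ++ v ∧ β = u ++ r ++ v

/-- head symbols -/
def IsH : Sy P → Prop
  | .terminal _ => False
  | .nonterminal .st => True
  | .nonterminal .lm => False
  | .nonterminal .rm => False
  | .nonterminal .idle => True
  | .nonterminal .back => True
  | .nonterminal .fin => True
  | .nonterminal (.chk _) => True
  | .nonterminal (.app _) => True
  | .nonterminal (.sym _) => False

variable {P} in
theorem uh {h h' : Sy P} (hh : IsH P h) (hh' : IsH P h') : ∀ (a a' b b' : List (Sy P)),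
    (∀ x ∈ a, ¬ IsH P x) → (∀ x ∈ b, ¬ IsH P x) → a' ++ h' :: b' = a ++ h :: b →
    a' = a ∧ h' = h ∧ b' = b := by
  intro a
  induction a with
  | nil =>
    intro a' b b' _ hb he
    cases a' with
    | nil => simp only [List.nil_append, List.cons.injEq] at he; exact ⟨rfl, he⟩
    | cons y a' =>
      simp only [List.cons_append, List.nil_append, List.cons.injEq] at he
      exact absurd hh' (hb h' (by rw [← he.2]; simp))
  | cons x a ih =>
    intro a' b b' ha hb he
    cases a' with
    | nil =>
      simp only [List.cons_append, List.nil_append, List.cons.injEq] at he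
      exact absurd hh' (by rw [he.1]; exact ha x (by simp))
    | cons y a' =>
      simp only [List.cons_append, List.cons.injEq] at he
      obtain ⟨h1, h2, h3⟩ := ih a' b b' (fun z hz => ha z (by simp [hz])) hb he.2
      exact ⟨by rw [he.1, h1], h2, h3⟩

/-- derivability of the stripped word in the forbidding grammar -/
def Der (c : List (Option (Symbol T N))) : Prop :=
  ReflTransGen (Pool.Agent.W937.FG.Step P) [Symbol.nonterminal S] c.reduceOption

/-- condition on the parts of the word left and right of the head -/
def Hd : NT T N P → List (Option (Symbol T N)) → List (Option (Symbol T N)) → Prop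
  | .idle, a, _ => a = []
  | .back, _, _ => True
  | .chk i, a, _ => ∀ B ∈ i.1.2.2, some (Symbol.nonterminal B) ∉ a
  | .app i, a, b => ∀ B ∈ i.1.2.2, some (Symbol.nonterminal B) ∉ a ++ b
  | _, _, _ => False

/-- the sentential forms -/
inductive Inv : List (Sy P) → Prop
  | start : Inv [nt .st]
  | mid (h : NT T N P) (a b : List (Option (Symbol T N))) (hh : Hd P h a b)
      (hd : Der P S (a ++ b)) :
      Inv ((nt .lm :: a.map pd) ++ nt h :: (b.map pd ++ [nt .rm]))
  | fin (a : List (Option T)) (b : List (Option (Symbol T N)))
      (hd : Der P S (a.map (Option.map Symbol.terminal) ++ b)) :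
      Inv ((Symbol.terminal none :: a.map Symbol.terminal) ++ nt .fin :: (b.map pd ++ [nt .rm]))
  | done (a : List (Option T)) (hd : Der P S (a.map (Option.map Symbol.terminal))) :
      Inv ((Symbol.terminal none :: a.map Symbol.terminal) ++
        [Symbol.terminal none, Symbol.terminal none])

/-- every left side has exactly one head symbol -/
theorem rl_head {l r : List (Sy P)} (h : Rl P S l r) : ∃ x ∈ l, IsH P x := by
  cases h with
  | init => exact ⟨nt .st, by simp, trivial⟩
  | pick i => exact ⟨nt .idle, by simp, trivial⟩
  | chkR i x h => exact ⟨nt (.chk i), by simp, trivial⟩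
  | chkE i => exact ⟨nt (.chk i), by simp, trivial⟩
  | appL i x => exact ⟨nt (.app i), by simp, trivial⟩
  | appl i => exact ⟨nt (.app i), by simp, trivial⟩
  | backL x => exact ⟨nt .back, by simp, trivial⟩
  | backE => exact ⟨nt .back, by simp, trivial⟩
  | finS => exact ⟨nt .idle, by simp, trivial⟩
  | finT t => exact ⟨nt .fin, by simp, trivial⟩
  | finE => exact ⟨nt .fin, by simp, trivial⟩

variable {P} in
theorem nh_pd (b : List (Option (Symbol T N))) : ∀ x ∈ b.map (pd (P := P)), ¬ IsH P x := by
  intro x hx
  obtain ⟨y, _, rfl⟩ := List.mem_map.1 hx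
  exact id

variable {P} in
theorem nh_tm (b : List (Option T)) :
    ∀ x ∈ b.map (Symbol.terminal : Option T → Sy P), ¬ IsH P x := by
  intro x hx
  obtain ⟨y, _, rfl⟩ := List.mem_map.1 hx
  exact id

variable {P} in
theorem hdH {h : NT T N P} {a b : List (Option (Symbol T N))} (hh : Hd P h a b) :
    IsH P (nt h) := by
  cases h <;> first | trivial | exact hh.elim

variable {P} in
/-- the right part starts with a padded symbol -/
theorem post_pd {b : List (Option (Symbol T N))} {x : Option (Symbol T N)} {v : List (Sy P)}
    (h : pd x :: v = b.map pd ++ [nt .rm]) : ∃ b', b = x :: b' ∧ v = b'.map pd ++ [nt .rm] := by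
  cases b with
  | nil => simp at h
  | cons y b =>
    simp only [List.map_cons, List.cons_append, List.cons.injEq, Symbol.nonterminal.injEq,
      NT.sym.injEq] at h
    exact ⟨b, by rw [h.1], h.2⟩

variable {P} in
theorem post_rm {b : List (Option (Symbol T N))} {v : List (Sy P)}
    (h : nt .rm :: v = b.map pd ++ [nt .rm]) : b = [] ∧ v = [] := by
  cases b with
  | nil => simpa using h
  | cons y b => simp at h

variable {P} in
theorem pre_pd {a : List (Option (Symbol T N))} {x : Option (Symbol T N)} {u : List (Sy P)}
    (h : u ++ [pd x] = nt .lm :: a.map pd) : ∃ a', a = a' ++ [x] ∧ u = nt .lm :: a'.map pd := by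
  induction a using List.reverseRecOn with
  | nil =>
    cases u with
    | nil => simp at h
    | cons y u => simp at h
  | append_singleton a y _ =>
    rw [List.map_append, List.map_singleton, ← List.cons_append] at h
    have := List.append_inj' h rfl
    simp only [List.cons.injEq, Symbol.nonterminal.injEq, NT.sym.injEq, and_true] at this
    exact ⟨a, by rw [this.2], this.1⟩

variable {P} in
theorem pre_lm {a : List (Option (Symbol T N))} {u : List (Sy P)}
    (h : u ++ [nt .lm] = nt .lm :: a.map pd) : a = [] ∧ u = [] := by
  induction a using List.reverseRecOn with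
  | nil =>
    cases u with
    | nil => simp
    | cons y u => simp at h
  | append_singleton a y _ =>
    rw [List.map_append, List.map_singleton, ← List.cons_append] at h
    have := List.append_inj' h rfl
    simp at this

theorem inv_mid {h : NT T N P} {a b : List (Option (Symbol T N))} (hh : Hd P h a b)
    (hd : Der P S (a ++ b)) {u v l r : List (Sy P)} (hr : Rl P S l r)
    (he : (nt .lm :: a.map pd) ++ nt h :: (b.map pd ++ [nt .rm]) = u ++ l ++ v) :
    Inv P S (u ++ r ++ v) := by
  have hpre : ∀ x ∈ (nt .lm :: a.map pd : List (Sy P)), ¬ IsH P x := by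
    intro x hx
    rcases List.mem_cons.1 hx with rfl | hx
    · exact id
    · exact nh_pd a x hx
  have hpost : ∀ x ∈ (b.map pd ++ [nt .rm] : List (Sy P)), ¬ IsH P x := by
    intro x hx
    rcases List.mem_append.1 hx with hx | hx
    · exact nh_pd b x hx
    · rw [List.mem_singleton.1 hx]; exact id
  have hH := hdH hh
  -- position of the head
  have main : ∀ (l1 l2 : List (Sy P)) (g : NT T N P), IsH P (nt g) → l = l1 ++ nt g :: l2 →
      u ++ l1 = nt .lm :: a.map pd ∧ g = h ∧ l2 ++ v = b.map pd ++ [nt .rm] := by
    intro l1 l2 g hg hl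
    subst hl
    have := uh hH hg _ (u ++ l1) _ (l2 ++ v) hpre hpost (by rw [he]; simp)
    simpa using this
  cases hr with
  | init =>
    obtain ⟨_, h2, _⟩ := main [] [] .st trivial rfl
    subst h2; exact hh.elim
  | pick i =>
    obtain ⟨h1, h2, h3⟩ := main [] [] .idle trivial rfl
    subst h2
    have ha : a = [] := hh
    subst ha
    simp only [List.append_nil, List.map_nil, List.nil_append] at h1 h3
    subst h1 h3
    have := Inv.mid (P := P) (S := S) (.chk i) [] b (by intro B _ hB; simp at hB) hd
    simpa using this
  | chkR i x hx =>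
    obtain ⟨h1, h2, h3⟩ := main [] [pd x] (.chk i) trivial rfl
    subst h2
    obtain ⟨b', rfl, rfl⟩ := post_pd (by simpa using h3)
    have := Inv.mid (P := P) (S := S) (.chk i) (a ++ [x]) b' (by
      intro B hB hm
      rcases List.mem_append.1 hm with hm | hm
      · exact hh B hB hm
      · exact hx B hB (List.mem_singleton.1 hm).symm) (by simpa using hd)
    rw [List.append_nil] at h1
    rw [h1]
    simpa using this
  | chkE i =>
    obtain ⟨h1, h2, h3⟩ := main [] [nt .rm] (.chk i) trivial rfl
    subst h2
    obtain ⟨rfl, rfl⟩ := post_rm (by simpa using h3)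
    have := Inv.mid (P := P) (S := S) (.app i) a [] (by
      intro B hB hm
      rw [List.append_nil] at hm
      exact hh B hB hm) hd
    rw [List.append_nil] at h1
    rw [h1]
    simpa using this
  | appL i x =>
    obtain ⟨h1, h2, h3⟩ := main [pd x] [] (.app i) trivial rfl
    subst h2
    obtain ⟨a', rfl, rfl⟩ := pre_pd h1
    have := Inv.mid (P := P) (S := S) (.app i) a' (x :: b) (by
      intro B hB hm
      exact hh B hB (by simpa using hm)) (by simpa using hd)
    rw [List.nil_append] at h3
    rw [h3]
    simpa using this
  | appl i =>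
    obtain ⟨h1, h2, h3⟩ := main [] [pd (some (.nonterminal i.1.1))] (.app i) trivial rfl
    subst h2
    obtain ⟨b', rfl, rfl⟩ := post_pd (by simpa using h3)
    have := Inv.mid (P := P) (S := S) .back a (padr i.1.2.1 ++ b') trivial (by
      refine ReflTransGen.tail hd ⟨a.reduceOption, b'.reduceOption, i.1.1, i.1.2.1, i.1.2.2,
        i.2, ?_, ?_, ?_⟩
      · simp [List.reduceOption_append, List.reduceOption_cons_of_some]
      · simp [List.reduceOption_append, padr_fm]
      · intro B hB hm
        rw [List.reduceOption_mem_iff] at hm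
        exact hh B hB hm)
    rw [List.append_nil] at h1
    rw [h1]
    simpa using this
  | backL x =>
    obtain ⟨h1, h2, h3⟩ := main [pd x] [] .back trivial rfl
    subst h2
    obtain ⟨a', rfl, rfl⟩ := pre_pd h1
    have := Inv.mid (P := P) (S := S) .back a' (x :: b) trivial (by simpa using hd)
    rw [List.nil_append] at h3
    rw [h3]
    simpa using this
  | backE =>
    obtain ⟨h1, h2, h3⟩ := main [nt .lm] [] .back trivial rfl
    subst h2
    obtain ⟨rfl, rfl⟩ := pre_lm h1
    have := Inv.mid (P := P) (S := S) .idle [] b rfl hd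
    rw [List.nil_append] at h3
    rw [h3]
    simpa using this
  | finS =>
    obtain ⟨h1, h2, h3⟩ := main [nt .lm] [] .idle trivial rfl
    subst h2
    obtain ⟨rfl, rfl⟩ := pre_lm h1
    have := Inv.fin (P := P) (S := S) [] b hd
    rw [List.nil_append] at h3
    rw [h3]
    simpa using this
  | finT t =>
    obtain ⟨_, h2, _⟩ := main [] [pd (t.map Symbol.terminal)] .fin trivial rfl
    subst h2; exact hh.elim
  | finE =>
    obtain ⟨_, h2, _⟩ := main [] [nt .rm] .fin trivial rfl
    subst h2; exact hh.elim

theorem inv_fin {a : List (Option T)} {b : List (Option (Symbol T N))}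
    (hd : Der P S (a.map (Option.map Symbol.terminal) ++ b)) {u v l r : List (Sy P)}
    (hr : Rl P S l r)
    (he : (Symbol.terminal none :: a.map Symbol.terminal) ++ nt .fin :: (b.map pd ++ [nt .rm]) =
      u ++ l ++ v) :
    Inv P S (u ++ r ++ v) := by
  have hpre : ∀ x ∈ (Symbol.terminal none :: a.map Symbol.terminal : List (Sy P)),
      ¬ IsH P x := by
    intro x hx
    rcases List.mem_cons.1 hx with rfl | hx
    · exact id
    · exact nh_tm a x hx
  have hpost : ∀ x ∈ (b.map pd ++ [nt .rm] : List (Sy P)), ¬ IsH P x := by
    intro x hx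
    rcases List.mem_append.1 hx with hx | hx
    · exact nh_pd b x hx
    · rw [List.mem_singleton.1 hx]; exact id
  have hH : IsH P (nt .fin) := trivial
  have main : ∀ (l1 l2 : List (Sy P)) (g : NT T N P), IsH P (nt g) → l = l1 ++ nt g :: l2 →
      u ++ l1 = Symbol.terminal none :: a.map Symbol.terminal ∧ g = .fin ∧
        l2 ++ v = b.map pd ++ [nt .rm] := by
    intro l1 l2 g hg hl
    subst hl
    have := uh hH hg _ (u ++ l1) _ (l2 ++ v) hpre hpost (by rw [he]; simp)
    simpa using this
  cases hr with
  | init => exact absurd (main [] [] .st trivial rfl).2.1 (by simp)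
  | pick i => exact absurd (main [] [] .idle trivial rfl).2.1 (by simp)
  | chkR i x hx => exact absurd (main [] [pd x] (.chk i) trivial rfl).2.1 (by simp)
  | chkE i => exact absurd (main [] [nt .rm] (.chk i) trivial rfl).2.1 (by simp)
  | appL i x => exact absurd (main [pd x] [] (.app i) trivial rfl).2.1 (by simp)
  | appl i =>
    exact absurd (main [] [pd (some (.nonterminal i.1.1))] (.app i) trivial rfl).2.1 (by simp)
  | backL x => exact absurd (main [pd x] [] .back trivial rfl).2.1 (by simp)
  | backE => exact absurd (main [nt .lm] [] .back trivial rfl).2.1 (by simp)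
  | finS => exact absurd (main [nt .lm] [] .idle trivial rfl).2.1 (by simp)
  | finT t =>
    obtain ⟨h1, _, h3⟩ := main [] [pd (t.map Symbol.terminal)] .fin trivial rfl
    obtain ⟨b', rfl, rfl⟩ := post_pd (by simpa using h3)
    have := Inv.fin (P := P) (S := S) (a ++ [t]) b' (by simpa using hd)
    rw [List.append_nil] at h1
    rw [h1]
    simpa using this
  | finE =>
    obtain ⟨h1, _, h3⟩ := main [] [nt .rm] .fin trivial rfl
    obtain ⟨rfl, rfl⟩ := post_rm (by simpa using h3)
    have := Inv.done (P := P) (S := S) a (by simpa using hd)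
    rw [List.append_nil] at h1
    rw [h1]
    simpa using this

theorem rl_st {l r : List (Sy P)} (h : Rl P S l r) (hm : nt .st ∈ l) :
    l = [nt .st] ∧ r = [nt .lm, nt .idle, pd (some (.nonterminal S)), nt .rm] := by
  cases h <;> simp_all

theorem inv_step {α β : List (Sy P)} (hα : Inv P S α) (h : St P S α β) : Inv P S β := by
  obtain ⟨u, v, l, r, hr, hl, rfl⟩ := h
  cases hα with
  | start =>
    obtain ⟨x, hx, hH⟩ := rl_head P S hr
    have hxe : x = nt .st := by
      have : x ∈ ([nt .st] : List (Sy P)) := by rw [hl]; simp [hx]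
      simpa using this
    subst hxe
    obtain ⟨rfl, rfl⟩ := rl_st P S hr hx
    have hlen := congrArg List.length hl
    simp only [List.length_append, List.length_singleton] at hlen
    have hu : u = [] := List.length_eq_zero_iff.1 (by omega)
    have hv : v = [] := List.length_eq_zero_iff.1 (by omega)
    subst hu hv
    have := Inv.mid (P := P) (S := S) .idle [] [some (.nonterminal S)] rfl
      (by simp [Der, List.reduceOption_cons_of_some, ReflTransGen.refl])
    simpa using this
  | mid h a b hh hd => exact inv_mid P S hh hd hr hl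
  | fin a b hd => exact inv_fin P S hd hr hl
  | done a hd =>
    exfalso
    obtain ⟨x, hx, hH⟩ := rl_head P S hr
    have hm : x ∈ (Symbol.terminal none :: a.map Symbol.terminal) ++
        [Symbol.terminal none, Symbol.terminal none] := by
      rw [hl]; simp [hx]
    have : ∃ y, x = Symbol.terminal y := by
      simp only [List.cons_append, List.mem_cons, List.mem_append, List.mem_map] at hm
      rcases hm with h | ⟨y, _, h⟩ | h | h | h
      · exact ⟨_, h⟩
      · exact ⟨y, h.symm⟩
      · exact ⟨_, h⟩
      · exact ⟨_, h⟩
      · simp at h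
    obtain ⟨y, rfl⟩ := this
    exact hH

/-! ### Completeness -/

/-- many steps in a context -/
theorem st_ctx {α β : List (Sy P)} {l r : List (Sy P)} (h : Rl P S l r) (u v : List (Sy P))
    (hα : α = u ++ l ++ v) (hβ : β = u ++ r ++ v) : St P S α β := ⟨u, v, l, r, h, hα, hβ⟩

theorem chk_sweep (i : P) : ∀ (b : List (Option (Symbol T N))) (pre post : List (Sy P)),
    (∀ B ∈ i.1.2.2, some (Symbol.nonterminal B) ∉ b) →
    ReflTransGen (St P S) (pre ++ nt (.chk i) :: (b.map pd ++ post))
      (pre ++ b.map pd ++ nt (.chk i) :: post) := by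
  intro b
  induction b with
  | nil => intro pre post _; simp [ReflTransGen.refl]
  | cons x b ih =>
    intro pre post hb
    have h1 : St P S (pre ++ nt (.chk i) :: ((x :: b).map pd ++ post))
        ((pre ++ [pd x]) ++ nt (.chk i) :: (b.map pd ++ post)) :=
      st_ctx P S (Rl.chkR i x fun B hB he => hb B hB (by rw [← he]; simp)) pre
        (b.map pd ++ post) (by simp) (by simp)
    refine ReflTransGen.head h1 ?_
    have := ih (pre ++ [pd x]) post (fun B hB hm => hb B hB (by simp [hm]))
    simpa using this

theorem app_sweep (i : P) : ∀ (b : List (Option (Symbol T N))) (pre post : List (Sy P)),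
    ReflTransGen (St P S) (pre ++ b.map pd ++ nt (.app i) :: post)
      (pre ++ nt (.app i) :: (b.map pd ++ post)) := by
  intro b
  induction b with
  | nil => intro pre post; simp [ReflTransGen.refl]
  | cons x b ih =>
    intro pre post
    have h1 : St P S ((pre ++ [pd x]) ++ nt (.app i) :: (b.map pd ++ post))
        (pre ++ nt (.app i) :: ((x :: b).map pd ++ post)) :=
      st_ctx P S (Rl.appL i x) pre (b.map pd ++ post) (by simp) (by simp)
    refine ReflTransGen.tail ?_ h1
    have := ih (pre ++ [pd x]) post
    simpa using this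

theorem back_sweep : ∀ (b : List (Option (Symbol T N))) (pre post : List (Sy P)),
    ReflTransGen (St P S) (pre ++ b.map pd ++ nt .back :: post)
      (pre ++ nt .back :: (b.map pd ++ post)) := by
  intro b
  induction b with
  | nil => intro pre post; simp [ReflTransGen.refl]
  | cons x b ih =>
    intro pre post
    have h1 : St P S ((pre ++ [pd x]) ++ nt .back :: (b.map pd ++ post))
        (pre ++ nt .back :: ((x :: b).map pd ++ post)) :=
      st_ctx P S (Rl.backL x) pre (b.map pd ++ post) (by simp) (by simp)
    refine ReflTransGen.tail ?_ h1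
    have := ih (pre ++ [pd x]) post
    simpa using this

theorem fin_sweep : ∀ (t : List (Option T)) (pre post : List (Sy P)),
    ReflTransGen (St P S) (pre ++ nt .fin :: ((t.map (Option.map Symbol.terminal)).map pd ++ post))
      (pre ++ t.map Symbol.terminal ++ nt .fin :: post) := by
  intro t
  induction t with
  | nil => intro pre post; simp [ReflTransGen.refl]
  | cons x t ih =>
    intro pre post
    have h1 : St P S (pre ++ nt .fin :: (((x :: t).map (Option.map Symbol.terminal)).map pd ++
        post)) ((pre ++ [Symbol.terminal x]) ++ nt .fin ::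
          ((t.map (Option.map Symbol.terminal)).map pd ++ post)) :=
      st_ctx P S (Rl.finT x) pre ((t.map (Option.map Symbol.terminal)).map pd ++ post)
        (by simp) (by simp)
    refine ReflTransGen.head h1 ?_
    have := ih (pre ++ [Symbol.terminal x]) post
    simpa using this

theorem reach {α : List (Symbol T N)}
    (h : ReflTransGen (Pool.Agent.W937.FG.Step P) [Symbol.nonterminal S] α) :
    ∃ c : List (Option (Symbol T N)), c.reduceOption = α ∧
      ReflTransGen (St P S) [nt .st] (nt .lm :: nt .idle :: (c.map pd ++ [nt .rm])) := by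
  induction h with
  | refl =>
    refine ⟨[some (.nonterminal S)], rfl, ReflTransGen.single ?_⟩
    exact st_ctx P S Rl.init [] [] (by simp) (by simp)
  | tail _ hst ih =>
    obtain ⟨c, hc, hr⟩ := ih
    obtain ⟨u, v, A, x, F, hP, hα, hβ, hF⟩ := hst
    rw [hα, List.append_assoc, List.reduceOption_eq_append_iff] at hc
    obtain ⟨c1, c2, rfl, h1, h2⟩ := hc
    rw [List.singleton_append, List.reduceOption] at h2
    rw [List.filterMap_eq_cons_iff] at h2
    obtain ⟨d1, o, d2, rfl, hd1, ho, h2⟩ := h2
    simp only [id] at ho hd1
    subst ho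
    have hd1' : d1.reduceOption = [] := by
      rw [List.reduceOption, List.filterMap_eq_nil_iff]
      exact hd1
    have h2' : d2.reduceOption = v := h2
    let i : P := ⟨(A, x, F), hP⟩
    have hF' : ∀ B ∈ i.1.2.2, some (Symbol.nonterminal B) ∉
        c1 ++ (d1 ++ some (Symbol.nonterminal A) :: d2) := by
      intro B hB hm
      refine hF B hB ?_
      rw [← List.reduceOption_mem_iff] at hm
      rw [hα]
      simpa [List.reduceOption_append, List.reduceOption_cons_of_some, h1, hd1', h2'] using hm
    refine ⟨c1 ++ d1 ++ padr x ++ d2, ?_, ?_⟩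
    · rw [hβ]
      simp [List.reduceOption_append, h1, hd1', h2', padr_fm]
    · -- the simulation of one step
      have s1 : St P S (nt .lm :: nt .idle ::
          ((c1 ++ (d1 ++ some (Symbol.nonterminal A) :: d2)).map pd ++ [nt .rm]))
          ([nt .lm] ++ nt (.chk i) ::
            ((c1 ++ (d1 ++ some (Symbol.nonterminal A) :: d2)).map pd ++ [nt .rm])) :=
        st_ctx P S (Rl.pick i) [nt .lm]
          ((c1 ++ (d1 ++ some (Symbol.nonterminal A) :: d2)).map pd ++ [nt .rm])
          (by simp) (by simp)
      have s2 := chk_sweep P S i _ [nt .lm] [nt .rm] hF'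
      have s3 : St P S ([nt .lm] ++
          (c1 ++ (d1 ++ some (Symbol.nonterminal A) :: d2)).map pd ++ nt (.chk i) :: [nt .rm])
          (([nt .lm] ++ (c1 ++ d1).map pd ++ [pd (some (Symbol.nonterminal A))]) ++
            d2.map pd ++ nt (.app i) :: [nt .rm]) :=
        st_ctx P S (Rl.chkE i) ([nt .lm] ++
          (c1 ++ (d1 ++ some (Symbol.nonterminal A) :: d2)).map pd) [] (by simp) (by simp)
      have s4 := app_sweep P S i d2
        ([nt .lm] ++ (c1 ++ d1).map pd ++ [pd (some (Symbol.nonterminal A))]) [nt .rm]
      have s5 : St P S (([nt .lm] ++ (c1 ++ d1).map pd ++ [pd (some (Symbol.nonterminal A))]) ++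
          nt (.app i) :: (d2.map pd ++ [nt .rm]))
          (([nt .lm] ++ (c1 ++ d1).map pd) ++ nt (.app i) ::
            pd (some (Symbol.nonterminal A)) :: (d2.map pd ++ [nt .rm])) :=
        st_ctx P S (Rl.appL i (some (Symbol.nonterminal A))) ([nt .lm] ++ (c1 ++ d1).map pd) (d2.map pd ++ [nt .rm])
          (by simp) (by simp)
      have s6 : St P S (([nt .lm] ++ (c1 ++ d1).map pd) ++ nt (.app i) ::
            pd (some (Symbol.nonterminal A)) :: (d2.map pd ++ [nt .rm]))
          ([nt .lm] ++ (c1 ++ d1).map pd ++ nt .back ::
            ((padr x).map pd ++ (d2.map pd ++ [nt .rm]))) :=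
        st_ctx P S (Rl.appl i) ([nt .lm] ++ (c1 ++ d1).map pd) (d2.map pd ++ [nt .rm])
          (by simp [i]) (by simp [i])
      have s7 := back_sweep P S (c1 ++ d1) [nt .lm] ((padr x).map pd ++ (d2.map pd ++ [nt .rm]))
      have s8 : St P S ([nt .lm] ++ nt .back :: ((c1 ++ d1).map pd ++
            ((padr x).map pd ++ (d2.map pd ++ [nt .rm]))))
          (nt .lm :: nt .idle :: ((c1 ++ d1 ++ padr x ++ d2).map pd ++ [nt .rm])) :=
        st_ctx P S Rl.backE [] ((c1 ++ d1).map pd ++
            ((padr x).map pd ++ (d2.map pd ++ [nt .rm]))) (by simp) (by simp)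
      exact ((hr.tail s1).trans s2).tail s3 |>.trans s4 |>.tail s5 |>.tail s6 |>.trans s7
        |>.tail s8

theorem exists_t : ∀ (c : List (Option (Symbol T N))) (w : List T),
    c.reduceOption = w.map Symbol.terminal →
    ∃ t : List (Option T), c = t.map (Option.map Symbol.terminal) ∧ t.reduceOption = w := by
  intro c
  induction c with
  | nil =>
    intro w h
    have : w = [] := by simpa [List.reduceOption] using h.symm
    exact ⟨[], rfl, this.symm ▸ rfl⟩
  | cons x c ih =>
    intro w h
    cases x with
    | none =>
      rw [List.reduceOption_cons_of_none] at h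
      obtain ⟨t, h1, h2⟩ := ih w h
      exact ⟨none :: t, by simp [h1], by rw [List.reduceOption_cons_of_none]; exact h2⟩
    | some s =>
      rw [List.reduceOption_cons_of_some] at h
      cases w with
      | nil => simp at h
      | cons a w =>
        simp only [List.map_cons, List.cons.injEq] at h
        obtain ⟨t, h1, h2⟩ := ih w h.2
        exact ⟨some a :: t, by simp [h1, h.1], by rw [List.reduceOption_cons_of_some, h2]⟩

variable [Finite T] [Finite N] (hPf : P.Finite)

/-- the padded grammar -/
def gr : Grammar (Option T) where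
  N := NT T N P
  finN := by
    have := hPf.to_subtype
    infer_instance
  P := {r | Rl P S r.1 r.2}
  finP := by
    have := hPf.to_subtype
    have : Finite (Sy P) := by
      classical
      have := Fintype.ofFinite (Option T)
      have := Fintype.ofFinite (NT T N P)
      infer_instance
    obtain ⟨B, hB⟩ := (hPf.image fun ρ : Rule T N => (padr ρ.2.1).length).bddAbove
    refine Set.Finite.subset ((List.finite_length_le (Sy P) 2).prod
      (List.finite_length_le (Sy P) (B + 4))) ?_
    rintro ⟨l, r⟩ h
    have hB' : ∀ i : P, (padr i.1.2.1).length ≤ B := fun i => hB ⟨i.1, i.2, rfl⟩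
    simp only [Set.mem_ofPred_eq] at h
    refine ⟨?_, ?_⟩
    · show l.length ≤ 2
      cases h <;> simp
    · show r.length ≤ B + 4
      cases h with
      | appl i => have := hB' i; simp; omega
      | _ => simp
  lhs := by
    rintro ⟨l, r⟩ h
    simp only [Set.mem_ofPred_eq] at h
    obtain ⟨x, hx, hH⟩ := rl_head P S h
    cases x with
    | terminal t => exact hH.elim
    | nonterminal A => exact ⟨A, hx⟩
  len := by
    rintro ⟨l, r⟩ h
    simp only [Set.mem_ofPred_eq] at h
    cases h with
    | appl i => have := padr_len i.1.2.1; simp; omega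
    | _ => simp
  S := .st

theorem gr_step {α β : List (Sy P)} : (gr P S hPf).Step α β ↔ St P S α β := Iff.rfl

/-- the forbidding language is the erasing image of the padded one -/
theorem gr_lang (w : List T) :
    Gen P S w ↔ w ∈ List.reduceOption '' (gr P S hPf).lang := by
  constructor
  · intro h
    obtain ⟨c, hc, hr⟩ := reach P S h
    obtain ⟨t, rfl, ht⟩ := exists_t c w hc
    refine ⟨none :: t ++ [none, none], ?_, ?_⟩
    · have s1 : St P S (nt .lm :: nt .idle ::
          ((t.map (Option.map Symbol.terminal)).map pd ++ [nt .rm]))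
          ([Symbol.terminal none] ++ nt .fin ::
            ((t.map (Option.map Symbol.terminal)).map pd ++ [nt .rm])) :=
        st_ctx P S Rl.finS [] ((t.map (Option.map Symbol.terminal)).map pd ++ [nt .rm])
          (by simp) (by simp)
      have s2 := fin_sweep P S t [Symbol.terminal none] [nt .rm]
      have s3 : St P S ([Symbol.terminal none] ++ t.map Symbol.terminal ++ nt .fin :: [nt .rm])
          ((none :: t ++ [none, none]).map Symbol.terminal) :=
        st_ctx P S Rl.finE ([Symbol.terminal none] ++ t.map Symbol.terminal) []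
          (by simp) (by simp)
      exact ((hr.tail s1).trans s2).tail s3
    · simp [List.reduceOption_append, List.reduceOption_cons_of_none, ht]
  · rintro ⟨w', hw', rfl⟩
    have hinv : ∀ α : List (Sy P), ReflTransGen (St P S) [nt .st] α → Inv P S α := by
      intro α h
      induction h with
      | refl => exact Inv.start
      | tail _ hs ih => exact inv_step P S ih hs
    have h1 : Inv P S (w'.map Symbol.terminal) := hinv _ hw'
    have hno : ∀ A : NT T N P, nt A ∉ (w'.map Symbol.terminal : List (Sy P)) := by
      intro A hA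
      obtain ⟨y, _, hy⟩ := List.mem_map.1 hA
      simp at hy
    generalize hγ : (w'.map Symbol.terminal : List (Sy P)) = γ at h1 hno
    cases h1 with
    | start => exact absurd (by simp) (hno .st)
    | mid h a b hh hd => exact absurd (by simp) (hno .lm)
    | fin a b hd => exact absurd (by simp) (hno .fin)
    | done a hd =>
      have h2 : w' = none :: a ++ [none, none] := by
        have h3 : (w'.map Symbol.terminal : List (Sy P)) =
            (none :: a ++ [none, none]).map Symbol.terminal := by rw [hγ]; simp
        exact List.map_injective_iff.2 (fun x y h => by simpa using h) h3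
      subst h2
      have h4 : (none :: a ++ [none, none]).reduceOption = a.reduceOption := by
        simp [List.reduceOption_append, List.reduceOption_cons_of_none]
      rw [h4]
      unfold Der at hd
      rw [List.reduceOption_map] at hd
      exact hd

end pad

/-- the context-sensitive languages are not closed under erasing a letter -/
theorem cs_erase : ∃ K : Set (List (Option (Fin 3))), K ∈ CS (Option (Fin 3)) ∧
    List.reduceOption '' K ∉ CS (Fin 3) := by
  obtain ⟨N, hN, S, P, hPf, _, h2⟩ := Pool.Agent.W937.FG.final Pool.Agent.W937.FG.hG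
    Pool.Agent.W937.FG.hF Pool.Agent.W937.FG.hC4 Pool.Agent.W937.FG.hTOPS
    Pool.Agent.W937.FG.hTOPC (Pool.Agent.W937.FG.hP2 Pool.Agent.W382.FG.P1.main)
  refine ⟨(gr P S hPf).lang, ⟨gr P S hPf, fun w _ => Iff.rfl⟩, ?_⟩
  rintro ⟨G, hG⟩
  have := G.finN
  obtain ⟨w, hw, hne⟩ := h2 G.N G.S
    ((fun r : List (Symbol (Fin 3) G.N) × List (Symbol (Fin 3) G.N) => (r.1, r.2, ∅)) '' G.P)
    (G.finP.image _) (by
      rintro _ ⟨r, hr, rfl⟩
      exact G.len r hr)
  apply hne
  rw [gr_lang P S hPf w, hG w hw]
  have hst : G.Step = GStep
      ((fun r : List (Symbol (Fin 3) G.N) × List (Symbol (Fin 3) G.N) =>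
        ((r.1, r.2, ∅) : GRule (Fin 3) G.N)) '' G.P) := by
    funext α β
    apply propext
    constructor
    · rintro ⟨u, v, x, y, hr, hα, hβ⟩
      exact ⟨u, v, x, y, ∅, ⟨(x, y), hr, rfl⟩, hα, hβ, by simp⟩
    · rintro ⟨u, v, l, r, F, ⟨⟨x, y⟩, hr, he⟩, hα, hβ, _⟩
      simp only [Prod.mk.injEq] at he
      obtain ⟨rfl, rfl, _⟩ := he
      exact ⟨u, v, x, y, hr, hα, hβ⟩
  unfold GGen Grammar.lang
  rw [← hst]
  rfl

/-- **The answer is no, for every family of control languages**: there is no family `𝓛` of
languages whatsoever with `SCFA(𝓛) = CS`. -/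
theorem result (𝓛 : Family) : ¬ ∀ (A : Type) [Finite A], SCFA 𝓛 A = CS A := by
  intro h
  obtain ⟨K, hK, hne⟩ := cs_erase
  rw [← h (Option (Fin 3))] at hK
  obtain ⟨M, C, hC, rfl⟩ := hK
  rw [← er_lang, ← h (Fin 3)] at hne
  exact hne ⟨er M, C, hC, rfl⟩

end Pool.Agent.Results.MP_020f70_lc.NoControlFamily
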